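import Mathlib

set_option autoImplicit false

namespace Pool.Agent.GridFree

open MvPolynomial

/-- Complex projective space of dimension `s`: the lines through `0` in `ℂ^(s+1)`. -/
abbrev PSpace (s : ℕ) : Type := Projectivization ℂ (Fin (s + 1) → ℂ)

/-- Polynomials over `ℂ` in one set of homogeneous coordinates `z_0, …, z_s`. -/
abbrev Poly1 (s : ℕ) : Type := MvPolynomial (Fin (s + 1)) ℂ

/-- Polynomials over `ℂ` in the coordinates `x_0, …, x_s` (the variables `Sum.inl i`)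
and `y_0, …, y_s` (the variables `Sum.inr j`). -/
abbrev Poly2 (s : ℕ) : Type := MvPolynomial (Fin (s + 1) ⊕ Fin (s + 1)) ℂ

/-- `F` is homogeneous of degree `a` in the `x`-variables and, separately, homogeneous of
degree `b` in the `y`-variables. -/
def IsBihomogeneous {s : ℕ} (F : Poly2 s) (a b : ℕ) : Prop :=
  ∀ m : (Fin (s + 1) ⊕ Fin (s + 1)) →₀ ℕ, F.coeff m ≠ 0 →
    ∑ i, m (Sum.inl i) = a ∧ ∑ j, m (Sum.inr j) = b

/-- The zero set in `ℙ^s × ℙ^s` of a polynomial `F` in `x` and `y` (it is used only for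
bihomogeneous `F`, for which the choice of representatives does not matter). -/
def zeroSet {s : ℕ} (F : Poly2 s) : Set (PSpace s × PSpace s) :=
  {p | eval (Sum.elim p.1.rep p.2.rep) F = 0}

/-- Zariski-open subsets of `ℙ^s`: complements of common zero sets of a family of homogeneous
polynomials. -/
def IsZariskiOpen {s : ℕ} (U : Set (PSpace s)) : Prop :=
  ∃ S : Set (Poly1 s), (∀ f ∈ S, ∃ n : ℕ, f.IsHomogeneous n) ∧
    U = {p | ∃ f ∈ S, eval p.rep f ≠ 0}

/-- `V` is `(s,t)`-grid-free: it contains no product `S × T` with `|S| = s` and `|T| = t`. -/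
def IsGridFree {P₁ P₂ : Type} (s t : ℕ) (V : Set (P₁ × P₂)) : Prop :=
  ¬ ∃ (S : Finset P₁) (T : Finset P₂), S.card = s ∧ T.card = t ∧
    ∀ p ∈ S, ∀ q ∈ T, (p, q) ∈ V

/-- `V ⊆ ℙ^s × ℙ^s` is almost-`(s,t)`-grid-free: `V ∩ (X × Y)` is `(s,t)`-grid-free for some
nonempty Zariski-open `X, Y ⊆ ℙ^s`. -/
def IsAlmostGridFree (s t : ℕ) (V : Set (PSpace s × PSpace s)) : Prop :=
  ∃ X Y : Set (PSpace s), IsZariskiOpen X ∧ X.Nonempty ∧ IsZariskiOpen Y ∧ Y.Nonempty ∧
    IsGridFree s t (V ∩ X ×ˢ Y)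

/-- `V` and `W` are almost equal: `V ∩ (X × Y) = W ∩ (X × Y)` for some nonempty Zariski-open
`X, Y ⊆ ℙ^s`. -/
def AlmostEqual {s : ℕ} (V W : Set (PSpace s × PSpace s)) : Prop :=
  ∃ X Y : Set (PSpace s), IsZariskiOpen X ∧ X.Nonempty ∧ IsZariskiOpen Y ∧ Y.Nonempty ∧
    V ∩ X ×ˢ Y = W ∩ X ×ˢ Y

/-- An irreducible hypersurface in `ℙ^s × ℙ^s`: the zero set of an irreducible bihomogeneous
polynomial. -/
def IsIrreducibleHypersurface {s : ℕ} (H : Set (PSpace s × PSpace s)) : Prop :=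
  ∃ (G : Poly2 s) (a b : ℕ), IsBihomogeneous G a b ∧ Irreducible G ∧ H = zeroSet G

/-- A tuple `(σ_0 : … : σ_s)` of homogeneous polynomials of equal degree without common
factor. -/
def IsReducedTuple {s : ℕ} (σ : Fin (s + 1) → Poly1 s) : Prop :=
  (∃ n : ℕ, ∀ i, (σ i).IsHomogeneous n) ∧ ∀ p : Poly1 s, (∀ i, p ∣ σ i) → IsUnit p

/-- The tuple `σ` represents a birational automorphism of `ℙ^s` (an element of the Cremona
group `Bir(ℙ^s)`): there is a second tuple `τ` such that `σ ∘ τ` and `τ ∘ σ` are both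
the identity rational map, i.e. of the form `c · (z_0, …, z_s)` with a nonzero polynomial
`c`. -/
def IsCremona {s : ℕ} (σ : Fin (s + 1) → Poly1 s) : Prop :=
  IsReducedTuple σ ∧ ∃ τ : Fin (s + 1) → Poly1 s, IsReducedTuple τ ∧
    (∃ c : Poly1 s, c ≠ 0 ∧ ∀ i, bind₁ τ (σ i) = c * X i) ∧
    (∃ c : Poly1 s, c ≠ 0 ∧ ∀ i, bind₁ σ (τ i) = c * X i)

/-- The polynomial `F ∘ (id × σ) = F(x, σ_0(y), …, σ_s(y))`. -/
noncomputable def compSnd {s : ℕ} (F : Poly2 s) (σ : Fin (s + 1) → Poly1 s) : Poly2 s :=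
  bind₁ (Sum.elim (fun i => X (Sum.inl i)) (fun j => rename Sum.inr (σ j))) F

/-- The assertion of the conjecture for the pair `(s,t)`: there is a `d` such that every
irreducible almost-`(s,t)`-grid-free hypersurface `H ⊆ ℙ^s × ℙ^s` is almost equal to
`{F ∘ (id × σ) = 0}` for some `σ ∈ Bir(ℙ^s)` and some bihomogeneous `F` of degree at most
`d` in `y`. -/
def BoundedUpToCremona (s t : ℕ) : Prop :=
  ∃ d : ℕ, ∀ H : Set (PSpace s × PSpace s), IsIrreducibleHypersurface H →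
    IsAlmostGridFree s t H →
      ∃ (σ : Fin (s + 1) → Poly1 s) (F : Poly2 s) (a b : ℕ), IsCremona σ ∧
        IsBihomogeneous F a b ∧ b ≤ d ∧ AlmostEqual H (zeroSet (compSnd F σ))

end Pool.Agent.GridFree
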