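import Mathlib

set_option autoImplicit false

namespace Pool.Agent.GridFree

open Polynomial

/-- A complex polynomial all of whose roots have even multiplicity is a square. -/
lemma exists_sq_of_even (p : ℂ[X]) (h : ∀ r : ℂ, Even (p.rootMultiplicity r)) :
    ∃ q : ℂ[X], p = q ^ 2 := by
  classical
  obtain ⟨c, hc⟩ := IsAlgClosed.exists_pow_nat_eq p.leadingCoeff (n := 2) (by norm_num)
  refine ⟨C c * ∏ a ∈ p.roots.toFinset, (X - C a) ^ (p.roots.count a / 2), ?_⟩
  have h1 : p = C p.leadingCoeff * (p.roots.map (fun a => X - C a)).prod :=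
    (IsAlgClosed.splits p).eq_prod_roots
  rw [mul_pow, ← C_pow, hc, ← Finset.prod_pow]
  conv_lhs => rw [h1]
  congr 1
  rw [Finset.prod_multiset_map_count]
  refine Finset.prod_congr rfl fun a _ => ?_
  rw [← pow_mul]
  congr 1
  have := h a
  rw [count_roots]
  rcases this with ⟨k, hk⟩
  omega

lemma natDegree_eq_zero_of_dvd_derivative (A : ℂ[X]) (h : A ∣ derivative A) :
    A.natDegree = 0 := by
  by_contra h0
  have h1 := natDegree_derivative_lt h0
  have h2 : derivative A = 0 := by
    by_contra h3
    exact absurd (natDegree_le_of_dvd h h3) (by omega)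
  exact h0 (derivative_eq_zero.mp h2)

/-- Main univariate estimate. -/
lemma pencil_bound (e m : ℕ) (A B N : ℂ[X]) (hAB : IsCoprime A B)
    (hdeg : 0 < max A.natDegree B.natDegree) (hN : N ≠ 0) (hNe : N.natDegree ≤ 2 * e)
    (hodd : ∀ r : ℂ, Odd ((∏ i ∈ Finset.range m, (B - C (i : ℂ) * A)).rootMultiplicity r) →
      N.IsRoot r) : m ≤ 2 * e + 4 := by
  classical
  set p : ℕ → ℂ[X] := fun i => B - C (i : ℂ) * A with hp
  obtain ⟨u, v, huv⟩ := hAB
  have hroot : ∀ r : ℂ, A.eval r = 0 → B.eval r = 0 → False := by
    intro r h1 h2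
    have := congrArg (eval r) huv
    simp [h1, h2] at this
  have hcop : ∀ i j : ℕ, i ≠ j → IsCoprime (p i) (p j) := by
    intro i j hij
    have hne : ((i : ℂ) - (j : ℂ)) ≠ 0 := by
      rw [sub_ne_zero]; exact_mod_cast hij
    refine ⟨C (((i : ℂ) - j)⁻¹) * (- u - C (j : ℂ) * v), C (((i : ℂ) - j)⁻¹) * (u + C (i : ℂ) * v), ?_⟩
    have h1 : C (((i : ℂ) - j)⁻¹) * (C (i : ℂ) - C (j : ℂ)) = 1 := by
      rw [← C_sub, ← C_mul, inv_mul_cancel₀ hne, C_1]
    simp only [hp]
    linear_combination (u * A + v * B) * h1 + huv
  have hp0 : ∀ i, p i ≠ 0 := by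
    intro i h0
    have hB : B = C (i : ℂ) * A := sub_eq_zero.mp h0
    have hu : IsUnit A := by
      rw [isUnit_iff_dvd_one]
      exact ⟨u + v * C (i : ℂ), by rw [← huv, hB]; ring⟩
    have hA0 : A.natDegree = 0 := natDegree_eq_zero_of_isUnit hu
    have hB0 : B.natDegree = 0 := by
      rw [hB]
      have := natDegree_C_mul_le (i : ℂ) A
      omega
    rw [hA0, hB0] at hdeg
    simp at hdeg
  by_contra hm
  push Not at hm
  -- bad indices
  set bad := (Finset.range m).filter (fun i => ∃ r : ℂ, Odd ((p i).rootMultiplicity r)) with hbad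
  set good := (Finset.range m).filter (fun i => ¬ ∃ r : ℂ, Odd ((p i).rootMultiplicity r))
    with hgood
  have hcard : bad.card + good.card = m := by
    rw [hbad, hgood, Finset.card_filter_add_card_filter_not, Finset.card_range]
  have hbadcard : bad.card ≤ 2 * e := by
    have hch : ∀ i ∈ bad, ∃ r : ℂ, Odd ((p i).rootMultiplicity r) := by
      intro i hi
      exact (Finset.mem_filter.mp hi).2
    choose! ρ hρ using hch
    have hroot' : ∀ i ∈ bad, (p i).eval (ρ i) = 0 := by
      intro i hi
      have h1 : 0 < (p i).rootMultiplicity (ρ i) := (hρ i hi).pos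
      exact (rootMultiplicity_pos (hp0 i)).mp h1
    have hother : ∀ i ∈ bad, ∀ j, j ≠ i → (p j).eval (ρ i) ≠ 0 := by
      intro i hi j hij h0
      obtain ⟨a, b, hab⟩ := hcop i j (Ne.symm hij)
      have := congrArg (eval (ρ i)) hab
      simp [hroot' i hi, h0] at this
    have hmem : ∀ i ∈ bad, ρ i ∈ N.roots.toFinset := by
      intro i hi
      rw [Multiset.mem_toFinset, mem_roots hN]
      apply hodd
      have him : i ∈ Finset.range m := (Finset.mem_filter.mp hi).1
      rw [← Finset.mul_prod_erase _ _ him]
      have hne : (∏ j ∈ (Finset.range m).erase i, p j) ≠ 0 :=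
        Finset.prod_ne_zero_iff.mpr fun j _ => hp0 j
      have h2 : rootMultiplicity (ρ i) (∏ j ∈ (Finset.range m).erase i, p j) = 0 := by
        apply rootMultiplicity_eq_zero
        rw [IsRoot.def, eval_prod]
        exact Finset.prod_ne_zero_iff.mpr fun j hj => hother i hi j (Finset.ne_of_mem_erase hj)
      have h3 := rootMultiplicity_mul (x := ρ i) (mul_ne_zero (hp0 i) hne)
      change Odd (rootMultiplicity (ρ i) (p i * ∏ j ∈ (Finset.range m).erase i, p j))
      rw [h3, h2, add_zero]
      exact hρ i hi
    have hinj : Set.InjOn ρ (bad : Set ℕ) := by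
      intro i hi j hj hij
      by_contra hne
      apply hother i hi j (Ne.symm hne)
      rw [hij]
      exact hroot' j hj
    calc bad.card ≤ N.roots.toFinset.card :=
          Finset.card_le_card_of_injOn ρ hmem hinj
      _ ≤ Multiset.card N.roots := Multiset.toFinset_card_le _
      _ ≤ N.natDegree := card_roots' N
      _ ≤ 2 * e := hNe
  set D := max A.natDegree B.natDegree with hD
  have hAD : A.natDegree ≤ D := le_max_left _ _
  have hBD : B.natDegree ≤ D := le_max_right _ _
  -- at most one index with smaller degree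
  set exc := good.filter (fun i => (p i).coeff D = 0) with hexc
  set good' := good.filter (fun i => ¬ (p i).coeff D = 0) with hgood'
  have hcard' : exc.card + good'.card = good.card := by
    rw [hexc, hgood', Finset.card_filter_add_card_filter_not]
  have hcoef : ∀ i, (p i).coeff D = B.coeff D - (i : ℂ) * A.coeff D := by
    intro i; simp [hp]
  have hexc1 : exc.card ≤ 1 := by
    rw [Finset.card_le_one]
    intro i hi j hj
    by_contra hij
    have h1 : (p i).coeff D = 0 := (Finset.mem_filter.mp hi).2
    have h2 : (p j).coeff D = 0 := (Finset.mem_filter.mp hj).2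
    rw [hcoef] at h1 h2
    have hne : ((i : ℂ) - (j : ℂ)) ≠ 0 := by
      rw [sub_ne_zero]; exact_mod_cast hij
    have h3 : ((i : ℂ) - j) * A.coeff D = 0 := by linear_combination h2 - h1
    have h4 : A.coeff D = 0 := by
      rcases mul_eq_zero.mp h3 with h | h
      · exact absurd h hne
      · exact h
    have h5 : B.coeff D = 0 := by rw [h4] at h1; simpa using h1
    rcases le_total A.natDegree B.natDegree with h | h
    · have h6 : D = B.natDegree := max_eq_right h
      rw [h6] at h5
      have h7 : B = 0 := leadingCoeff_eq_zero.mp h5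
      rw [h7, natDegree_zero] at h6
      omega
    · have h6 : D = A.natDegree := max_eq_left h
      rw [h6] at h4
      have h7 : A = 0 := leadingCoeff_eq_zero.mp h4
      rw [h7, natDegree_zero] at h6
      omega
  have h4 : 4 ≤ good'.card := by omega
  obtain ⟨T, hT, hT4⟩ := Finset.exists_subset_card_eq h4
  have hTgood : ∀ i ∈ T, i ∈ good := fun i hi => (Finset.mem_filter.mp (hT hi)).1
  have hTdeg : ∀ i ∈ T, (p i).natDegree = D := by
    intro i hi
    have h1 : (p i).coeff D ≠ 0 := (Finset.mem_filter.mp (hT hi)).2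
    apply le_antisymm
    · have h2 : (C (i : ℂ) * A).natDegree ≤ A.natDegree := natDegree_C_mul_le _ _
      have h3 := natDegree_sub_le B (C (i : ℂ) * A)
      simp only [hp]
      omega
    · exact le_natDegree_of_ne_zero h1
  have hsq : ∀ i ∈ T, ∃ q : ℂ[X], p i = q ^ 2 := by
    intro i hi
    apply exists_sq_of_even
    intro r
    rw [← Nat.not_odd_iff_even]
    intro hr
    exact (Finset.mem_filter.mp (hTgood i hi)).2 ⟨r, hr⟩
  choose! q hq using hsq
  set W := A * derivative B - B * derivative A with hW
  have hqW : ∀ i ∈ T, q i ∣ W := by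
    intro i hi
    refine ⟨2 * A * derivative (q i) - q i * derivative A, ?_⟩
    have h1 : derivative (p i) = 2 * q i * derivative (q i) := by
      rw [hq i hi, sq, derivative_mul]; ring
    have h2 : W = A * derivative (p i) - p i * derivative A := by
      simp only [hW, hp, derivative_sub, derivative_mul, derivative_C]; ring
    rw [h2, h1]
    linear_combination (-(derivative A)) * hq i hi
  have hqcop : (T : Set ℕ).Pairwise (Function.onFun IsCoprime q) := by
    intro i hi j hj hij
    have h1 := hcop i j hij
    rw [hq i hi, hq j hj] at h1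
    exact (IsCoprime.pow_iff (by norm_num) (by norm_num)).mp h1
  have hprod := Finset.prod_dvd_of_coprime hqcop hqW
  have hqdeg : ∀ i ∈ T, 2 * (q i).natDegree = D := by
    intro i hi
    rw [← hTdeg i hi, hq i hi, natDegree_pow]
  have hq0 : ∀ i ∈ T, q i ≠ 0 := by
    intro i hi h0
    apply hp0 i
    rw [hq i hi, h0]; simp
  have hdegprod : 2 * (∏ i ∈ T, q i).natDegree = 4 * D := by
    rw [natDegree_prod _ _ hq0, Finset.mul_sum, Finset.sum_congr rfl hqdeg,
      Finset.sum_const, hT4, smul_eq_mul]
  have hWdeg : W.natDegree ≤ 2 * D - 1 := by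
    have h1 : (A * derivative B).natDegree ≤ 2 * D - 1 := by
      have := natDegree_mul_le (p := A) (q := derivative B)
      have h2 := natDegree_derivative_le B
      omega
    have h2 : (B * derivative A).natDegree ≤ 2 * D - 1 := by
      have := natDegree_mul_le (p := B) (q := derivative A)
      have h2 := natDegree_derivative_le A
      omega
    have h3 := natDegree_sub_le (A * derivative B) (B * derivative A)
    rw [← hW] at h3
    omega
  have hW0 : W = 0 := by
    by_contra h0
    have := natDegree_le_of_dvd hprod h0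
    omega
  have hWeq : A * derivative B = B * derivative A := sub_eq_zero.mp hW0
  have hAB' : IsCoprime A B := ⟨u, v, huv⟩
  have hA : A ∣ derivative A := by
    have : A ∣ B * derivative A := ⟨derivative B, hWeq.symm⟩
    exact hAB'.dvd_of_dvd_mul_left this
  have hB : B ∣ derivative B := by
    have : B ∣ A * derivative B := ⟨derivative A, hWeq⟩
    exact hAB'.symm.dvd_of_dvd_mul_left this
  have h1 := natDegree_eq_zero_of_dvd_derivative A hA
  have h2 := natDegree_eq_zero_of_dvd_derivative B hB
  rw [hD, h1, h2] at hdeg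
  simp at hdeg

end Pool.Agent.GridFree
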