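import Mathlib
import Pool.Agent.GridFree.Defs
import Pool.Agent.GridFree.Pencil

set_option autoImplicit false

namespace Pool.Agent.GridFree

open MvPolynomial

/-- Scaling of a bihomogeneous polynomial. -/
lemma aeval_scale {s : ℕ} {A : Type} [CommRing A] [Algebra ℂ A] (F : Poly2 s) (a b : ℕ)
    (hF : IsBihomogeneous F a b) (l k : A) (x y : Fin (s + 1) → A) :
    aeval (Sum.elim (fun i => l * x i) (fun j => k * y j)) F =
      l ^ a * k ^ b * aeval (Sum.elim x y) F := by
  rw [aeval_def, aeval_def, eval₂_eq', eval₂_eq', Finset.mul_sum]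
  refine Finset.sum_congr rfl fun d hd => ?_
  rw [mem_support_iff] at hd
  obtain ⟨h1, h2⟩ := hF d hd
  rw [Fintype.prod_sum_type, Fintype.prod_sum_type]
  simp only [Sum.elim_inl, Sum.elim_inr, mul_pow, Finset.prod_mul_distrib]
  rw [Finset.prod_pow_eq_pow_sum, Finset.prod_pow_eq_pow_sum, h1, h2]
  ring

/-- embedding of `ℂ[T]` in `ℂ[x][T]`. -/
noncomputable def iot : Polynomial ℂ →ₐ[ℂ] Polynomial (MvPolynomial (Fin 3) ℂ) :=
  Polynomial.mapAlgHom (Algebra.ofId ℂ (MvPolynomial (Fin 3) ℂ))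

lemma iot_eval (p : Polynomial ℂ) (r : ℂ) :
    (iot p).eval (C r) = C (p.eval r) := by
  have h : (iot p) = p.map (C : ℂ →+* MvPolynomial (Fin 3) ℂ) := rfl
  rw [h, Polynomial.eval_map, Polynomial.eval₂_at_apply]

lemma iot_coeff (p : Polynomial ℂ) (k : ℕ) :
    (iot p).coeff k = C (p.coeff k) := by
  have h : (iot p) = p.map (C : ℂ →+* MvPolynomial (Fin 3) ℂ) := rfl
  rw [h, Polynomial.coeff_map]

lemma iot_natDegree (p : Polynomial ℂ) : (iot p).natDegree = p.natDegree := by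
  have h : (iot p) = p.map (C : ℂ →+* MvPolynomial (Fin 3) ℂ) := rfl
  rw [h, Polynomial.natDegree_map_eq_of_injective (C_injective _ _)]

lemma iot_ne_zero {p : Polynomial ℂ} (hp : p ≠ 0) : iot p ≠ 0 := by
  have h : (iot p) = p.map (C : ℂ →+* MvPolynomial (Fin 3) ℂ) := rfl
  rw [h]
  exact (Polynomial.map_ne_zero_iff (C_injective _ _)).mpr hp

lemma natDegree_line {s : ℕ} {F : Poly2 s} {a b : ℕ} (hF : IsBihomogeneous F a b)
    {R : Type} [CommRing R] [IsDomain R] [Algebra ℂ R]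
    (x : Fin (s + 1) → R) (y : Fin (s + 1) → Polynomial R) (hy : ∀ j, (y j).natDegree ≤ 1) :
    (aeval (Sum.elim (fun i => Polynomial.C (x i)) y) F).natDegree ≤ b := by
  rw [aeval_def, eval₂_eq']
  apply Polynomial.natDegree_sum_le_of_forall_le
  intro d hd
  rw [mem_support_iff] at hd
  obtain ⟨h1, h2⟩ := hF d hd
  rw [Fintype.prod_sum_type]
  simp only [Sum.elim_inl, Sum.elim_inr]
  have e1 : ∏ i, (Polynomial.C (x i)) ^ d (Sum.inl i) =
      Polynomial.C (∏ i, (x i) ^ d (Sum.inl i)) := by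
    rw [map_prod]; simp
  rw [e1, ← mul_assoc, IsScalarTower.algebraMap_apply ℂ R (Polynomial R),
    Polynomial.algebraMap_eq, ← Polynomial.C_mul]
  refine (Polynomial.natDegree_C_mul_le _ _).trans ?_
  refine (Polynomial.natDegree_prod_le _ _).trans ?_
  rw [← h2]
  refine Finset.sum_le_sum fun j _ => ?_
  refine Polynomial.natDegree_pow_le.trans ?_
  calc d (Sum.inr j) * (y j).natDegree ≤ d (Sum.inr j) * 1 := Nat.mul_le_mul_left _ (hy j)
    _ = d (Sum.inr j) := mul_one _

/-- Cancelling a nonzero polynomial in `T` against a primitive polynomial. -/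
lemma dvd_of_primitive (L : Polynomial (MvPolynomial (Fin 3) ℂ))
    (hL : ∀ r : ℂ, L.eval (C r) ≠ 0) :
    ∀ (n : ℕ) (h : Polynomial ℂ) (P K : Polynomial (MvPolynomial (Fin 3) ℂ)),
      h.natDegree = n → h ≠ 0 → iot h * P = L * K → L ∣ P := by
  intro n
  induction n with
  | zero =>
    intro h P K hn h0 heq
    obtain ⟨c, hc⟩ : ∃ c : ℂ, h = Polynomial.C c :=
      ⟨_, Polynomial.eq_C_of_natDegree_eq_zero hn⟩
    have hc0 : c ≠ 0 := by
      rintro rfl
      exact h0 (by rw [hc]; simp)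
    have h1 : iot (Polynomial.C c⁻¹) * iot h = 1 := by
      rw [hc, ← map_mul, ← Polynomial.C_mul, inv_mul_cancel₀ hc0]; simp
    refine ⟨K * iot (Polynomial.C c⁻¹), ?_⟩
    calc P = (iot (Polynomial.C c⁻¹) * iot h) * P := by rw [h1, one_mul]
      _ = iot (Polynomial.C c⁻¹) * (iot h * P) := by ring
      _ = L * (K * iot (Polynomial.C c⁻¹)) := by rw [heq]; ring
  | succ n ih =>
    intro h P K hn h0 heq
    obtain ⟨r, hr⟩ := IsAlgClosed.exists_root h (by
      intro hd
      have := Polynomial.natDegree_eq_of_degree_eq_some (n := 0) (by simpa using hd)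
      omega)
    obtain ⟨h', hh'⟩ := Polynomial.dvd_iff_isRoot.mpr hr
    have hX : iot (Polynomial.X - Polynomial.C r) = Polynomial.X - Polynomial.C (C r) := by
      simp [iot]
    have hK : (K.eval (C r)) = 0 := by
      have h1 := congrArg (Polynomial.eval (C r)) heq
      rw [Polynomial.eval_mul, Polynomial.eval_mul, iot_eval, hr.eq_zero, C_0, zero_mul] at h1
      rcases mul_eq_zero.mp h1.symm with h2 | h2
      · exact absurd h2 (hL r)
      · exact h2
    obtain ⟨K', hK'⟩ := Polynomial.dvd_iff_isRoot.mpr hK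
    have hh'0 : h' ≠ 0 := by rintro rfl; exact h0 (by rw [hh', mul_zero])
    have hdeg : h'.natDegree = n := by
      have := congrArg Polynomial.natDegree hh'
      rw [Polynomial.natDegree_mul (Polynomial.X_sub_C_ne_zero r) hh'0,
        Polynomial.natDegree_X_sub_C] at this
      omega
    apply ih h' P K' hdeg hh'0
    have hne : (Polynomial.X - Polynomial.C (C r) : Polynomial (MvPolynomial (Fin 3) ℂ)) ≠ 0 :=
      Polynomial.X_sub_C_ne_zero _
    apply mul_left_cancel₀ hne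
    calc (Polynomial.X - Polynomial.C (C r)) * (iot h' * P)
        = iot h * P := by rw [hh', map_mul, hX]; ring
      _ = L * K := heq
      _ = (Polynomial.X - Polynomial.C (C r)) * (L * K') := by rw [hK']; ring

lemma lin_eq_zero (c0 c1 c2 : ℂ)
    (h : (X 0 * C c0 + X 1 * C c1 + X 2 * C c2 : MvPolynomial (Fin 3) ℂ) = 0) :
    c0 = 0 ∧ c1 = 0 ∧ c2 = 0 := by
  refine ⟨?_, ?_, ?_⟩
  · simpa using congrArg (eval (![1, 0, 0] : Fin 3 → ℂ)) h
  · simpa using congrArg (eval (![0, 1, 0] : Fin 3 → ℂ)) h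
  · simpa using congrArg (eval (![0, 0, 1] : Fin 3 → ℂ)) h

/-- The linear form with coefficients `a0, a1, a2`. -/
noncomputable def lam (a0 a1 a2 : Polynomial ℂ) : Polynomial (MvPolynomial (Fin 3) ℂ) :=
  Polynomial.C (X 0) * iot a0 + Polynomial.C (X 1) * iot a1 + Polynomial.C (X 2) * iot a2

lemma lam_coeff (a0 a1 a2 : Polynomial ℂ) (k : ℕ) :
    (lam a0 a1 a2).coeff k = X 0 * C (a0.coeff k) + X 1 * C (a1.coeff k) +
      X 2 * C (a2.coeff k) := by
  simp only [lam, Polynomial.coeff_add, Polynomial.coeff_C_mul, iot_coeff]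

lemma lam_eval (a0 a1 a2 : Polynomial ℂ) (r : ℂ) :
    (lam a0 a1 a2).eval (C r) = X 0 * C (a0.eval r) + X 1 * C (a1.eval r) +
      X 2 * C (a2.eval r) := by
  simp only [lam, Polynomial.eval_add, Polynomial.eval_mul, Polynomial.eval_C, iot_eval]

lemma lam_natDegree (a0 a1 a2 : Polynomial ℂ) (e : ℕ) (h : (lam a0 a1 a2).natDegree ≤ e) :
    a0.natDegree ≤ e ∧ a1.natDegree ≤ e ∧ a2.natDegree ≤ e := by
  have h1 : ∀ k, e < k → a0.coeff k = 0 ∧ a1.coeff k = 0 ∧ a2.coeff k = 0 := by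
    intro k hk
    apply lin_eq_zero
    rw [← lam_coeff]
    exact Polynomial.coeff_eq_zero_of_natDegree_lt (by omega)
  refine ⟨?_, ?_, ?_⟩ <;> rw [Polynomial.natDegree_le_iff_coeff_eq_zero] <;> intro k hk
  · exact (h1 k hk).1
  · exact (h1 k hk).2.1
  · exact (h1 k hk).2.2

lemma exists_coprime (p q : Polynomial ℂ) (hp : p ≠ 0) :
    ∃ g a b : Polynomial ℂ, g ≠ 0 ∧ p = g * a ∧ q = g * b ∧ IsCoprime a b := by
  classical
  have hg0 : EuclideanDomain.gcd p q ≠ 0 := by
    intro h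
    exact hp (EuclideanDomain.gcd_eq_zero_iff.mp h).1
  obtain ⟨a, ha⟩ := EuclideanDomain.gcd_dvd_left p q
  obtain ⟨b, hb⟩ := EuclideanDomain.gcd_dvd_right p q
  refine ⟨EuclideanDomain.gcd p q, a, b, hg0, ha, hb, ?_⟩
  have h1 := EuclideanDomain.gcd_eq_gcd_ab p q
  refine ⟨EuclideanDomain.gcdA p q, EuclideanDomain.gcdB p q, ?_⟩
  apply mul_left_cancel₀ hg0
  calc EuclideanDomain.gcd p q * (EuclideanDomain.gcdA p q * a + EuclideanDomain.gcdB p q * b)
      = (EuclideanDomain.gcd p q * a) * EuclideanDomain.gcdA p q +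
        (EuclideanDomain.gcd p q * b) * EuclideanDomain.gcdB p q := by ring
    _ = p * EuclideanDomain.gcdA p q + q * EuclideanDomain.gcdB p q := by rw [← ha, ← hb]
    _ = EuclideanDomain.gcd p q := h1.symm
    _ = EuclideanDomain.gcd p q * 1 := (mul_one _).symm

end Pool.Agent.GridFree
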