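import Mathlib
import Pool.Agent.GridFree.Alg

set_option autoImplicit false

namespace Pool.Agent.GridFree

open MvPolynomial

/-- The product `∏_{i<m} (b - i a)`. -/
noncomputable def prodLin {A : Type} [CommRing A] [Algebra ℂ A] (m : ℕ) (a b : A) : A :=
  ∏ i ∈ Finset.range m, (b - algebraMap ℂ A (i : ℂ) * a)

/-- The polynomial defining the example. -/
noncomputable def exPoly (m : ℕ) : Poly2 2 :=
  X (Sum.inl 0) * X (Sum.inr 0) ^ (m + 2) +
    X (Sum.inl 1) * (X (Sum.inr 0) ^ (m + 1) * X (Sum.inr 1)) +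
    X (Sum.inl 2) * (prodLin m (X (Sum.inr 0)) (X (Sum.inr 1)) * X (Sum.inr 2) ^ 2)

lemma map_prodLin {A B : Type} [CommRing A] [Algebra ℂ A] [CommRing B] [Algebra ℂ B]
    (f : A →ₐ[ℂ] B) (m : ℕ) (a b : A) : f (prodLin m a b) = prodLin m (f a) (f b) := by
  simp [prodLin, map_prod]

lemma aeval_exPoly {A : Type} [CommRing A] [Algebra ℂ A] (m : ℕ) (x y : Fin 3 → A) :
    aeval (Sum.elim x y) (exPoly m) =
      x 0 * y 0 ^ (m + 2) + x 1 * (y 0 ^ (m + 1) * y 1) +
        x 2 * (prodLin m (y 0) (y 1) * y 2 ^ 2) := by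
  simp [exPoly, map_prodLin]

lemma aeval_compSnd {A : Type} [CommRing A] [Algebra ℂ A] {s : ℕ} (F : Poly2 s)
    (σ : Fin (s + 1) → Poly1 s) (x y : Fin (s + 1) → A) :
    aeval (Sum.elim x y) (compSnd F σ) =
      aeval (Sum.elim x (fun j => aeval y (σ j))) F := by
  rw [compSnd, aeval_bind₁]
  congr 2
  funext k
  rcases k with i | j
  · simp
  · simp only [Sum.elim_inr]
    rw [aeval_rename]
    congr 2

lemma prodLin_mul {A : Type} [CommRing A] [Algebra ℂ A] (m : ℕ) (g a b : A) :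
    prodLin m (g * a) (g * b) = g ^ m * prodLin m a b := by
  unfold prodLin
  have : ∀ i ∈ Finset.range m, (g * b - algebraMap ℂ A (i : ℂ) * (g * a)) =
      g * (b - algebraMap ℂ A (i : ℂ) * a) := by intro i _; ring
  rw [Finset.prod_congr rfl this, Finset.prod_mul_distrib, Finset.prod_const, Finset.card_range]

/-- The main algebraic statement. -/
lemma main_alg (m e a : ℕ) (hm : Odd m) (σ τ : Fin 3 → Poly1 2) (c c' : Poly1 2)
    (hc : c ≠ 0) (hc' : c' ≠ 0) (hστ : ∀ i, bind₁ τ (σ i) = c * X i)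
    (hτσ : ∀ i, bind₁ σ (τ i) = c' * X i) (F : Poly2 2)
    (hF : IsBihomogeneous F a e) (hF0 : F ≠ 0) (hdvd : exPoly m ∣ compSnd F σ) :
    m ≤ 2 * e + 4 := by
  obtain ⟨K, hK⟩ := hdvd
  -- nonvanishing of the relevant polynomials
  have hτ0 : ∀ i, τ i ≠ 0 := by
    intro i h0
    have := hτσ i
    rw [h0, map_zero] at this
    exact (mul_ne_zero hc' (X_ne_zero i)) this.symm
  have hprod : F * rename Sum.inr (c * τ 0 * τ 2) ≠ 0 := by
    apply mul_ne_zero hF0
    rw [Ne, map_eq_zero_iff _ (rename_injective _ Sum.inr_injective)]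
    exact mul_ne_zero (mul_ne_zero hc (hτ0 0)) (hτ0 2)
  obtain ⟨v, hv⟩ : ∃ v, eval v (F * rename Sum.inr (c * τ 0 * τ 2)) ≠ 0 := by
    by_contra hcon
    push Not at hcon
    exact hprod (MvPolynomial.funext (by simpa using hcon))
  set xs : Fin 3 → ℂ := fun i => v (Sum.inl i) with hxs
  set p : Fin 3 → ℂ := fun i => v (Sum.inr i) with hp
  rw [map_mul, eval_rename] at hv
  have hvF : eval v F ≠ 0 := left_ne_zero_of_mul hv
  have hv2 : eval p (c * τ 0 * τ 2) ≠ 0 := right_ne_zero_of_mul hv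
  rw [map_mul, map_mul] at hv2
  have hpc : eval p c ≠ 0 := left_ne_zero_of_mul (left_ne_zero_of_mul hv2)
  have hp0 : eval p (τ 0) ≠ 0 := right_ne_zero_of_mul (left_ne_zero_of_mul hv2)
  have hp2 : eval p (τ 2) ≠ 0 := right_ne_zero_of_mul hv2
  -- second point
  have hE : (C (eval p (τ 0)) * τ 1 - C (eval p (τ 1)) * τ 0 : Poly1 2) ≠ 0 := by
    intro h0
    have h1 := congrArg (bind₁ σ) h0
    rw [map_sub, map_mul, map_mul, hτσ, hτσ, map_zero, bind₁_C_right, bind₁_C_right] at h1
    have h2 : c' * (C (eval p (τ 0)) * X 1 - C (eval p (τ 1)) * X 0) = 0 := by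
      rw [← h1]; ring
    rcases mul_eq_zero.mp h2 with h3 | h3
    · exact hc' h3
    · have := congrArg (eval (![0, 1, 0] : Fin 3 → ℂ)) h3
      simp at this
      exact hp0 this
  obtain ⟨q, hq⟩ : ∃ q, eval q (C (eval p (τ 0)) * τ 1 - C (eval p (τ 1)) * τ 0 : Poly1 2) ≠ 0 := by
    by_contra hcon
    push Not at hcon
    exact hE (MvPolynomial.funext (by simpa using hcon))
  simp only [map_sub, map_mul, eval_C] at hq
  -- the line
  set l : Fin 3 → Polynomial ℂ := fun j =>
    Polynomial.C (p j) + Polynomial.C (q j - p j) * Polynomial.X with hl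
  have hl0 : ∀ f : Poly1 2, (aeval l f).eval 0 = eval p f := by
    intro f
    have : (aeval l f).eval 0 = ((Polynomial.aeval (0 : ℂ)).comp (aeval l)) f := by
      simp [Polynomial.coe_aeval_eq_eval]
    rw [this, comp_aeval]
    have h2 : (fun i => (Polynomial.aeval (0 : ℂ)) (l i)) = p := by
      funext i; simp [hl]
    rw [h2]
    exact DFunLike.congr_fun (coe_aeval_eq_eval _) f
  have hl1 : ∀ f : Poly1 2, (aeval l f).eval 1 = eval q f := by
    intro f
    have : (aeval l f).eval 1 = ((Polynomial.aeval (1 : ℂ)).comp (aeval l)) f := by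
      simp [Polynomial.coe_aeval_eq_eval]
    rw [this, comp_aeval]
    have h2 : (fun i => (Polynomial.aeval (1 : ℂ)) (l i)) = q := by
      funext i; simp [hl]
    rw [h2]
    exact DFunLike.congr_fun (coe_aeval_eq_eval _) f
  set t : Fin 3 → Polynomial ℂ := fun j => aeval l (τ j) with ht
  have ht0 : t 0 ≠ 0 := by
    intro h0
    apply hp0
    rw [← hl0]
    change (t 0).eval 0 = 0
    rw [h0]; simp
  have ht2 : t 2 ≠ 0 := by
    intro h0
    apply hp2
    rw [← hl0]
    change (t 2).eval 0 = 0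
    rw [h0]; simp
  have hcl : aeval l c ≠ 0 := by
    intro h0
    apply hpc
    rw [← hl0, h0]; simp
  obtain ⟨g, A, B, hg0, hgA, hgB, hAB⟩ := exists_coprime (t 0) (t 1) ht0
  have hA0 : A ≠ 0 := by rintro rfl; exact ht0 (by rw [hgA, mul_zero])
  have hdeg : 0 < max A.natDegree B.natDegree := by
    by_contra hcon
    have h1 : A.natDegree = 0 := by
      have := le_max_left A.natDegree B.natDegree; omega
    have h2 : B.natDegree = 0 := by
      have := le_max_right A.natDegree B.natDegree; omega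
    apply hq
    have e0 := hl0 (τ 0)
    have e1 := hl0 (τ 1)
    have e2 := hl1 (τ 0)
    have e3 := hl1 (τ 1)
    change (t 0).eval 0 = _ at e0
    change (t 1).eval 0 = _ at e1
    change (t 0).eval 1 = _ at e2
    change (t 1).eval 1 = _ at e3
    rw [← e0, ← e1, ← e2, ← e3, hgA, hgB, Polynomial.eq_C_of_natDegree_eq_zero h1,
      Polynomial.eq_C_of_natDegree_eq_zero h2]
    simp
    ring
  have hP0 : prodLin m A B ≠ 0 := by
    intro h0
    rw [prodLin, Finset.prod_eq_zero_iff] at h0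
    obtain ⟨i, _, hi⟩ := h0
    have hBA : B = algebraMap ℂ (Polynomial ℂ) (i : ℂ) * A := sub_eq_zero.mp hi
    obtain ⟨u, w, huw⟩ := hAB
    have hu : IsUnit A := by
      rw [isUnit_iff_dvd_one]
      exact ⟨u + w * algebraMap ℂ (Polynomial ℂ) (i : ℂ), by rw [← huw, hBA]; ring⟩
    have hA0 : A.natDegree = 0 := Polynomial.natDegree_eq_zero_of_isUnit hu
    have hB0 : B.natDegree = 0 := by
      rw [hBA, Polynomial.algebraMap_apply]
      have := Polynomial.natDegree_C_mul_le ((algebraMap ℂ ℂ) (i : ℂ)) A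
      omega
    rw [hA0, hB0] at hdeg
    simp at hdeg
  obtain ⟨κ, M, N, hκ0, hκM, hκN, hMN⟩ := exists_coprime (g ^ 2 * A ^ (m + 1))
    (prodLin m A B * (t 2) ^ 2) (mul_ne_zero (pow_ne_zero _ hg0) (pow_ne_zero _ hA0))
  have hM0 : M ≠ 0 := by
    rintro rfl
    rw [mul_zero] at hκM
    exact (mul_ne_zero (pow_ne_zero _ hg0) (pow_ne_zero _ hA0)) hκM
  have hN0 : N ≠ 0 := by
    rintro rfl
    rw [mul_zero] at hκN
    exact (mul_ne_zero hP0 (pow_ne_zero _ ht2)) hκN
  -- apply the substitution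
  set xx : Fin 3 → Polynomial (MvPolynomial (Fin 3) ℂ) := fun i => Polynomial.C (X i) with hxx
  set yy : Fin 3 → Polynomial (MvPolynomial (Fin 3) ℂ) := fun j => iot (t j) with hyy
  have hsub := congrArg (aeval (Sum.elim xx yy)) hK
  rw [map_mul, aeval_compSnd, aeval_exPoly] at hsub
  set Phi : Polynomial (MvPolynomial (Fin 3) ℂ) :=
    aeval (Sum.elim xx (fun j => iot (l j))) F with hPhi
  have hlhs : aeval (Sum.elim xx (fun j => aeval yy (σ j))) F = (iot (aeval l c)) ^ e * Phi := by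
    have h1 : (fun j => aeval yy (σ j)) = fun j => iot (aeval l c) * iot (l j) := by
      funext j
      have h2 : aeval yy (σ j) = iot (aeval t (σ j)) := by
        have h3 : yy = fun j => iot (t j) := rfl
        rw [h3, ← comp_aeval]; rfl
      have h4 : aeval t (σ j) = aeval l (bind₁ τ (σ j)) := by
        rw [aeval_bind₁]
      rw [h2, h4, hστ, map_mul, aeval_X, map_mul]
    rw [h1]
    have h5 := aeval_scale F a e hF (1 : Polynomial (MvPolynomial (Fin 3) ℂ))
      (iot (aeval l c)) xx (fun j => iot (l j))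
    simp only [one_mul, one_pow] at h5
    exact h5
  have hrhs : xx 0 * yy 0 ^ (m + 2) + xx 1 * (yy 0 ^ (m + 1) * yy 1) +
        xx 2 * (prodLin m (yy 0) (yy 1) * yy 2 ^ 2) =
      iot (g ^ m * κ) * lam (M * A) (M * B) N := by
    have h0 : yy 0 = iot g * iot A := by
      change iot (t 0) = _
      rw [hgA, map_mul]
    have h1 : yy 1 = iot g * iot B := by
      change iot (t 1) = _
      rw [hgB, map_mul]
    have h2 : yy 2 = iot (t 2) := rfl
    have h3 : prodLin m (yy 0) (yy 1) = iot g ^ m * iot (prodLin m A B) := by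
      rw [h0, h1, prodLin_mul, map_prodLin]
    have h4 : iot g ^ 2 * iot A ^ (m + 1) = iot κ * iot M := by
      rw [← map_pow, ← map_pow, ← map_mul, hκM, map_mul]
    have h5 : iot (prodLin m A B) * iot (t 2) ^ 2 = iot κ * iot N := by
      rw [← map_pow, ← map_mul, hκN, map_mul]
    rw [h3, h0, h1, h2, lam]
    simp only [map_mul, map_pow, hxx]
    linear_combination (Polynomial.C (X 0) * iot A * iot g ^ m +
      Polynomial.C (X 1) * iot B * iot g ^ m) * h4 + Polynomial.C (X 2) * iot g ^ m * h5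
  rw [hlhs, hrhs] at hsub
  have hPhi0 : Phi ≠ 0 := by
    intro h0
    apply hvF
    have h1 : ((aeval xs : MvPolynomial (Fin 3) ℂ →ₐ[ℂ] ℂ) (Phi.eval (C 0))) = 0 := by
      rw [h0]; simp
    have h2 : Phi.eval (C 0) = aeval (Sum.elim (fun i => (X i : MvPolynomial (Fin 3) ℂ))
        (fun j => C (p j))) F := by
      have h3 : Phi.eval (C 0) = ((Polynomial.aeval (R := MvPolynomial (Fin 3) ℂ)
          (C 0 : MvPolynomial (Fin 3) ℂ)).restrictScalars ℂ) Phi := by
        simp [Polynomial.coe_aeval_eq_eval]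
      rw [h3, hPhi, ← AlgHom.comp_apply, comp_aeval]
      congr 2
      funext k
      rcases k with i | j
      · simp [hxx]
      · simp only [Sum.elim_inr, AlgHom.restrictScalars_apply, Polynomial.coe_aeval_eq_eval]
        rw [iot_eval]
        simp [hl]
    rw [h2, ← AlgHom.comp_apply, comp_aeval] at h1
    rw [← h1, ← coe_aeval_eq_eval]
    change (aeval v) F = _
    congr 2
    funext k
    rcases k with i | j
    · simp [hxs]
    · simp [hp]
  have hprim : ∀ r : ℂ, (lam (M * A) (M * B) N).eval (C r) ≠ 0 := by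
    intro r h0
    rw [lam_eval] at h0
    obtain ⟨h1, h2, h3⟩ := lin_eq_zero _ _ _ h0
    rw [Polynomial.eval_mul] at h1 h2
    obtain ⟨u, w, huw⟩ := hMN
    have hMr : M.eval r ≠ 0 := by
      intro h4
      have := congrArg (Polynomial.eval r) huw
      simp [h4, h3] at this
    obtain ⟨u', w', huw'⟩ := hAB
    have h5 : A.eval r = 0 := (mul_eq_zero.mp h1).resolve_left hMr
    have h6 : B.eval r = 0 := (mul_eq_zero.mp h2).resolve_left hMr
    have := congrArg (Polynomial.eval r) huw'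
    simp [h5, h6] at this
  have hdvd : lam (M * A) (M * B) N ∣ Phi := by
    apply dvd_of_primitive _ hprim _ ((aeval l c) ^ e) Phi
      (iot (g ^ m * κ) * aeval (Sum.elim xx yy) K) rfl (pow_ne_zero _ hcl)
    rw [map_pow, hsub]
    ring
  have hPhideg : Phi.natDegree ≤ e := by
    rw [hPhi]
    apply natDegree_line hF
    intro j
    rw [iot_natDegree, hl]
    refine (Polynomial.natDegree_add_le _ _).trans ?_
    rw [Polynomial.natDegree_C]
    refine max_le (by omega) ?_
    exact (Polynomial.natDegree_C_mul_le _ _).trans (by rw [Polynomial.natDegree_X])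
  have hlamdeg : (lam (M * A) (M * B) N).natDegree ≤ e :=
    (Polynomial.natDegree_le_of_dvd hdvd hPhi0).trans hPhideg
  obtain ⟨hd1, _, hd3⟩ := lam_natDegree _ _ _ _ hlamdeg
  rw [Polynomial.natDegree_mul hM0 hA0] at hd1
  have hMNdeg : (M * N).natDegree ≤ 2 * e := by
    rw [Polynomial.natDegree_mul hM0 hN0]; omega
  refine pencil_bound e m A B (M * N) hAB hdeg (mul_ne_zero hM0 hN0) hMNdeg ?_
  intro r hr
  obtain ⟨k, hk⟩ := hm
  have hkey : κ ^ 2 * (M * N) = prodLin m A B * (g * t 2 * A ^ (k + 1)) ^ 2 := by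
    have h1 : A ^ (m + 1) = (A ^ (k + 1)) ^ 2 := by rw [← pow_mul]; congr 1; omega
    calc κ ^ 2 * (M * N) = (κ * M) * (κ * N) := by ring
      _ = (g ^ 2 * A ^ (m + 1)) * (prodLin m A B * (t 2) ^ 2) := by rw [← hκM, ← hκN]
      _ = prodLin m A B * (g * t 2 * A ^ (k + 1)) ^ 2 := by rw [h1]; ring
  have hpr : (∏ i ∈ Finset.range m, (B - Polynomial.C (i : ℂ) * A)) = prodLin m A B := rfl
  rw [hpr] at hr
  have hne1 : κ ^ 2 * (M * N) ≠ 0 :=
    mul_ne_zero (pow_ne_zero _ hκ0) (mul_ne_zero hM0 hN0)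
  have hne2 := hne1
  rw [hkey] at hne2
  have h1 := Polynomial.rootMultiplicity_mul (x := r) hne1
  have h2 := Polynomial.rootMultiplicity_mul (x := r) hne2
  rw [← hkey, h1] at h2
  have h3 : ∀ w : Polynomial ℂ, w ≠ 0 → (w ^ 2).rootMultiplicity r = 2 * w.rootMultiplicity r := by
    intro w hw
    rw [sq, Polynomial.rootMultiplicity_mul (mul_ne_zero hw hw)]; ring
  rw [h3 κ hκ0, h3 _ (mul_ne_zero (mul_ne_zero hg0 ht2) (pow_ne_zero _ hA0))] at h2
  rw [← Polynomial.rootMultiplicity_pos (mul_ne_zero hM0 hN0)]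
  rcases hr with ⟨n, hn⟩
  omega

end Pool.Agent.GridFree
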