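import Mathlib
import Pool.Agent.GridFree.Main

set_option autoImplicit false

namespace Pool.Agent.GridFree

open MvPolynomial

/-! ### Bihomogeneity of the example -/

lemma IsBihomogeneous.add {s : ℕ} {F G : Poly2 s} {a b : ℕ} (hF : IsBihomogeneous F a b)
    (hG : IsBihomogeneous G a b) : IsBihomogeneous (F + G) a b := by
  intro m hm
  rw [coeff_add] at hm
  by_cases h : F.coeff m = 0
  · rw [h, zero_add] at hm
    exact hG m hm
  · exact hF m h

lemma IsBihomogeneous.mul {s : ℕ} {F G : Poly2 s} {a b a' b' : ℕ} (hF : IsBihomogeneous F a b)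
    (hG : IsBihomogeneous G a' b') : IsBihomogeneous (F * G) (a + a') (b + b') := by
  classical
  intro m hm
  rw [coeff_mul] at hm
  obtain ⟨x, hx, hx0⟩ := Finset.exists_ne_zero_of_sum_ne_zero hm
  rw [Finset.HasAntidiagonal.mem_antidiagonal] at hx
  obtain ⟨h1, h2⟩ := hF x.1 (left_ne_zero_of_mul hx0)
  obtain ⟨h3, h4⟩ := hG x.2 (right_ne_zero_of_mul hx0)
  rw [← hx]
  simp only [Finsupp.add_apply, Finset.sum_add_distrib]
  omega

lemma IsBihomogeneous.C {s : ℕ} (c : ℂ) : IsBihomogeneous (MvPolynomial.C c : Poly2 s) 0 0 := by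
  classical
  intro m hm
  rw [coeff_C] at hm
  have h : 0 = m := by
    by_contra h
    rw [if_neg h] at hm
    exact hm rfl
  rw [← h]; simp

lemma IsBihomogeneous.X_inl {s : ℕ} (i : Fin (s + 1)) :
    IsBihomogeneous (MvPolynomial.X (Sum.inl i) : Poly2 s) 1 0 := by
  classical
  intro m hm
  rw [coeff_X] at hm
  have h : Finsupp.single (Sum.inl i) 1 = m := by
    by_contra h
    rw [if_neg h] at hm
    exact hm rfl
  rw [← h]
  simp [Finsupp.single_apply]

lemma IsBihomogeneous.X_inr {s : ℕ} (i : Fin (s + 1)) :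
    IsBihomogeneous (MvPolynomial.X (Sum.inr i) : Poly2 s) 0 1 := by
  classical
  intro m hm
  rw [coeff_X] at hm
  have h : Finsupp.single (Sum.inr i) 1 = m := by
    by_contra h
    rw [if_neg h] at hm
    exact hm rfl
  rw [← h]
  simp [Finsupp.single_apply]

lemma IsBihomogeneous.sub {s : ℕ} {F G : Poly2 s} {a b : ℕ} (hF : IsBihomogeneous F a b)
    (hG : IsBihomogeneous G a b) : IsBihomogeneous (F - G) a b := by
  intro m hm
  rw [coeff_sub] at hm
  by_cases h : F.coeff m = 0
  · rw [h, zero_sub, neg_ne_zero] at hm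
    exact hG m hm
  · exact hF m h

lemma IsBihomogeneous.pow {s : ℕ} {F : Poly2 s} {a b : ℕ} (hF : IsBihomogeneous F a b)
    (n : ℕ) : IsBihomogeneous (F ^ n) (n * a) (n * b) := by
  induction n with
  | zero =>
    simpa using IsBihomogeneous.C (s := s) 1
  | succ n ih =>
    rw [pow_succ, Nat.succ_mul, Nat.succ_mul]
    exact ih.mul hF

lemma prodLin_bihom (m : ℕ) :
    IsBihomogeneous (prodLin m (MvPolynomial.X (Sum.inr 0)) (MvPolynomial.X (Sum.inr 1)) :
      Poly2 2) 0 m := by
  unfold prodLin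
  induction m with
  | zero => simpa using IsBihomogeneous.C (s := 2) 1
  | succ n ih =>
    rw [Finset.prod_range_succ]
    refine ih.mul (?_ : IsBihomogeneous _ 0 1)
    refine (IsBihomogeneous.X_inr 1).sub ?_
    have := (IsBihomogeneous.C (s := 2) (n : ℂ)).mul (IsBihomogeneous.X_inr (s := 2) 0)
    simpa using this

lemma exPoly_bihom (m : ℕ) : IsBihomogeneous (exPoly m) 1 (m + 2) := by
  unfold exPoly
  refine IsBihomogeneous.add (IsBihomogeneous.add ?_ ?_) ?_
  · have := (IsBihomogeneous.X_inl (s := 2) 0).mul ((IsBihomogeneous.X_inr (s := 2) 0).pow (m + 2))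
    simpa using this
  · have := (IsBihomogeneous.X_inl (s := 2) 1).mul
      (((IsBihomogeneous.X_inr (s := 2) 0).pow (m + 1)).mul (IsBihomogeneous.X_inr (s := 2) 1))
    simpa using this
  · have := (IsBihomogeneous.X_inl (s := 2) 2).mul
      ((prodLin_bihom m).mul ((IsBihomogeneous.X_inr (s := 2) 2).pow 2))
    simpa using this

/-! ### Irreducibility -/

lemma vars_prodLin (m : ℕ) : (prodLin m (X (Sum.inr 0)) (X (Sum.inr 1)) : Poly2 2).vars ⊆
    {Sum.inr 0, Sum.inr 1} := by
  classical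
  unfold prodLin
  induction m with
  | zero => simp
  | succ n ih =>
    rw [Finset.prod_range_succ]
    refine (vars_mul _ _).trans (Finset.union_subset ih ?_)
    refine (vars_sub_subset _).trans (Finset.union_subset ?_ ?_)
    · rw [vars_X]; simp
    · refine (vars_mul _ _).trans (Finset.union_subset ?_ ?_)
      · rw [algebraMap_eq, vars_C]; simp
      · rw [vars_X]; simp

lemma exPoly_irreducible (m : ℕ) : Irreducible (exPoly m) := by
  classical
  set f : Poly2 2 := X (Sum.inr 0) ^ (m + 2) with hf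
  set g : Poly2 2 := X (Sum.inl 1) * (X (Sum.inr 0) ^ (m + 1) * X (Sum.inr 1)) +
    X (Sum.inl 2) * (prodLin m (X (Sum.inr 0)) (X (Sum.inr 1)) * X (Sum.inr 2) ^ 2) with hg
  have h : exPoly m = f * X (Sum.inl 0) + g := by
    rw [hf, hg, exPoly]; ring
  rw [h]
  apply irreducible_mul_X_add
  · exact pow_ne_zero _ (X_ne_zero _)
  · intro hmem
    have h1 := vars_pow (X (Sum.inr 0) : Poly2 2) (m + 2) hmem
    rw [vars_X] at h1
    simp at h1
  · intro hmem
    have h1 := vars_add_subset _ _ hmem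
    rw [Finset.mem_union] at h1
    rcases h1 with h1 | h1
    · have h2 := vars_mul _ _ h1
      rw [Finset.mem_union, vars_X] at h2
      rcases h2 with h2 | h2
      · simp at h2
      · have h3 := vars_mul _ _ h2
        rw [Finset.mem_union, vars_X] at h3
        rcases h3 with h3 | h3
        · have h4 := vars_pow _ _ h3
          rw [vars_X] at h4
          simp at h4
        · simp at h3
    · have h2 := vars_mul _ _ h1
      rw [Finset.mem_union, vars_X] at h2
      rcases h2 with h2 | h2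
      · simp at h2
      · have h3 := vars_mul _ _ h2
        rw [Finset.mem_union] at h3
        rcases h3 with h3 | h3
        · have h4 := vars_prodLin m h3
          simp at h4
        · have h4 := vars_pow _ _ h3
          rw [vars_X] at h4
          simp at h4
  · apply IsRelPrime.pow_left
    rw [Irreducible.isRelPrime_iff_not_dvd (X_prime.irreducible)]
    rintro ⟨k, hk⟩
    set x : Fin 3 → ℂ := ![0, 0, 1] with hx
    set y : Fin 3 → ℂ := ![0, 1, 1] with hy
    have h1 := congrArg (aeval (Sum.elim x y)) hk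
    rw [hg] at h1
    simp only [map_add, map_mul, map_pow, aeval_X, Sum.elim_inl, Sum.elim_inr, map_prodLin] at h1
    simp [hx, hy, prodLin] at h1

/-! ### Projective points -/

lemma rep_mk_smul {n : ℕ} (v : Fin n → ℂ) (hv : v ≠ 0) :
    ∃ a : ℂ, a ≠ 0 ∧ (Projectivization.mk ℂ v hv).rep = fun i => a * v i := by
  obtain ⟨a, ha⟩ := Projectivization.exists_smul_eq_mk_rep ℂ v hv
  refine ⟨a, a.ne_zero, ?_⟩
  rw [← ha]
  rfl

lemma eval_homog {s n : ℕ} (f : Poly1 s) (hf : f.IsHomogeneous n) (a : ℂ)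
    (v : Fin (s + 1) → ℂ) : eval (fun i => a * v i) f = a ^ n * eval v f := by
  rw [eval_eq', eval_eq', Finset.mul_sum]
  refine Finset.sum_congr rfl fun d hd => ?_
  rw [mem_support_iff] at hd
  have h1 := hf hd
  have h2 : ∑ i, d i = n := by
    rw [← h1, Finsupp.weight_apply, Finsupp.sum_fintype _ _ (by simp)]
    simp
  simp only [mul_pow, Finset.prod_mul_distrib]
  rw [Finset.prod_pow_eq_pow_sum, h2]
  ring

lemma mem_open_mk {s n : ℕ} (f : Poly1 s) (hf : f.IsHomogeneous n)
    (v : Fin (s + 1) → ℂ) (hv : v ≠ 0) (hfv : eval v f ≠ 0) :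
    eval (Projectivization.mk ℂ v hv).rep f ≠ 0 := by
  obtain ⟨a, ha, h⟩ := rep_mk_smul v hv
  rw [h, eval_homog f hf]
  exact mul_ne_zero (pow_ne_zero _ ha) hfv

lemma mem_zeroSet_mk {s a b : ℕ} (F : Poly2 s) (hF : IsBihomogeneous F a b)
    (v w : Fin (s + 1) → ℂ) (hv : v ≠ 0) (hw : w ≠ 0) :
    (Projectivization.mk ℂ v hv, Projectivization.mk ℂ w hw) ∈ zeroSet F ↔
      eval (Sum.elim v w) F = 0 := by
  obtain ⟨k, hk, h1⟩ := rep_mk_smul v hv
  obtain ⟨l, hl, h2⟩ := rep_mk_smul w hw
  change eval (Sum.elim (Projectivization.mk ℂ v hv).rep (Projectivization.mk ℂ w hw).rep) F = 0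
    ↔ _
  rw [h1, h2]
  have h3 := aeval_scale F a b hF k l v w
  have h4 : ∀ u : Fin (s + 1) ⊕ Fin (s + 1) → ℂ, aeval u F = eval u F := fun u =>
    DFunLike.congr_fun (coe_aeval_eq_eval _) F
  rw [h4, h4] at h3
  rw [h3, mul_eq_zero]
  constructor
  · rintro (h | h)
    · exact absurd h (mul_ne_zero (pow_ne_zero _ hk) (pow_ne_zero _ hl))
    · exact h
  · exact Or.inr

/-- `F ∘ (id × σ)` is bihomogeneous. -/
lemma compSnd_bihom {s a b n : ℕ} (F : Poly2 s) (hF : IsBihomogeneous F a b)
    (σ : Fin (s + 1) → Poly1 s) (hσ : ∀ i, (σ i).IsHomogeneous n) (k l : ℂ)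
    (v w : Fin (s + 1) → ℂ) :
    eval (Sum.elim (fun i => k * v i) (fun i => l * w i)) (compSnd F σ) =
      k ^ a * (l ^ n) ^ b * eval (Sum.elim v w) (compSnd F σ) := by
  have h4 : ∀ u : Fin (s + 1) ⊕ Fin (s + 1) → ℂ, ∀ P : Poly2 s, aeval u P = eval u P :=
    fun u P => DFunLike.congr_fun (coe_aeval_eq_eval _) P
  have h5 : ∀ u : Fin (s + 1) → ℂ, ∀ P : Poly1 s, aeval u P = eval u P :=
    fun u P => DFunLike.congr_fun (coe_aeval_eq_eval _) P
  rw [← h4, ← h4, aeval_compSnd, aeval_compSnd]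
  have h6 : (fun j => aeval (fun i => l * w i) (σ j)) = fun j => l ^ n * aeval w (σ j) := by
    funext j
    rw [h5, h5, eval_homog _ (hσ j)]
  rw [h6, aeval_scale F a b hF]

end Pool.Agent.GridFree
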