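import Mathlib
import Pool.Agent.GridFree.Geom

set_option autoImplicit false

namespace Pool.Agent.GridFree

open MvPolynomial

lemma eq_of_rep_smul {n : ℕ} (p q : Projectivization ℂ (Fin n → ℂ)) (c : ℂ)
    (h : ∀ i, c * q.rep i = p.rep i) : p = q := by
  rw [← p.mk_rep, ← q.mk_rep, Projectivization.mk_eq_mk_iff']
  exact ⟨c, funext h⟩

lemma point_eq (q q' : PSpace 2) (h0 : q.rep 0 ≠ 0) (h0' : q'.rep 0 ≠ 0)
    (h1 : q.rep 1 / q.rep 0 = q'.rep 1 / q'.rep 0)
    (h2 : q.rep 2 / q.rep 0 = q'.rep 2 / q'.rep 0) : q = q' := by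
  apply eq_of_rep_smul q q' (q.rep 0 / q'.rep 0)
  intro i
  fin_cases i
  · simp only [Fin.zero_eta]
    field_simp
  · simp only [Fin.mk_one]
    field_simp at h1 ⊢
    linear_combination -h1
  · simp only [Fin.reduceFinMk]
    field_simp at h2 ⊢
    linear_combination -h2

lemma cross_eq (p q : PSpace 2)
    (h0 : p.rep 1 * q.rep 2 - p.rep 2 * q.rep 1 = 0)
    (h1 : p.rep 2 * q.rep 0 - p.rep 0 * q.rep 2 = 0)
    (h2 : p.rep 0 * q.rep 1 - p.rep 1 * q.rep 0 = 0) : p = q := by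
  have hq := q.rep_nonzero
  have hex : ∃ i, q.rep i ≠ 0 := by
    by_contra hcon
    push Not at hcon
    exact hq (funext hcon)
  obtain ⟨k, hk⟩ := hex
  apply eq_of_rep_smul p q (p.rep k / q.rep k)
  intro i
  rw [div_mul_eq_mul_div, div_eq_iff hk]
  fin_cases k <;> fin_cases i <;> simp only [Fin.zero_eta, Fin.mk_one, Fin.reduceFinMk] <;>
    first
      | ring1
      | linear_combination h0
      | linear_combination -h0
      | linear_combination h1
      | linear_combination -h1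
      | linear_combination h2
      | linear_combination -h2

/-- The open set used in the second factor. -/
noncomputable def yPoly (m : ℕ) : Poly1 2 := X 0 * prodLin m (X 0) (X 1)

lemma prodLin_homog (m : ℕ) : (prodLin m (X 0) (X 1) : Poly1 2).IsHomogeneous m := by
  unfold prodLin
  induction m with
  | zero => simpa using isHomogeneous_one (Fin 3) ℂ
  | succ n ih =>
    rw [Finset.prod_range_succ]
    refine ih.mul ?_
    refine (isHomogeneous_X ℂ 1).sub ?_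
    have := (isHomogeneous_C (Fin 3) (n : ℂ)).mul (isHomogeneous_X ℂ (0 : Fin 3))
    simpa using this

lemma yPoly_homog (m : ℕ) : (yPoly m).IsHomogeneous (1 + m) :=
  (isHomogeneous_X ℂ 0).mul (prodLin_homog m)

lemma isZariskiOpen_univ (s : ℕ) : IsZariskiOpen (Set.univ : Set (PSpace s)) := by
  refine ⟨{1}, ?_, ?_⟩
  · intro f hf
    rw [Set.mem_singleton_iff] at hf
    exact ⟨0, hf ▸ isHomogeneous_one _ _⟩
  · ext p
    simp

lemma isZariskiOpen_single {s n : ℕ} (f : Poly1 s) (hf : f.IsHomogeneous n) :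
    IsZariskiOpen ({p | eval p.rep f ≠ 0} : Set (PSpace s)) := by
  refine ⟨{f}, ?_, ?_⟩
  · intro g hg
    rw [Set.mem_singleton_iff] at hg
    exact ⟨n, hg ▸ hf⟩
  · ext p
    simp

lemma yOpen_nonempty (m : ℕ) :
    ({p | eval p.rep (yPoly m) ≠ 0} : Set (PSpace 2)).Nonempty := by
  have hv : (![1, -1, 0] : Fin 3 → ℂ) ≠ 0 := by
    intro h
    have := congrFun h 0
    simp at this
  refine ⟨Projectivization.mk ℂ ![1, -1, 0] hv, ?_⟩
  apply mem_open_mk _ (yPoly_homog m)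
  have h5 : ∀ P : Poly1 2, eval ![1, -1, 0] P = aeval ![1, -1, 0] P :=
    fun P => (DFunLike.congr_fun (coe_aeval_eq_eval _) P).symm
  rw [h5, yPoly, map_mul, map_prodLin]
  simp only [aeval_X, prodLin]
  apply mul_ne_zero
  · simp
  · rw [Finset.prod_ne_zero_iff]
    intro i _
    simp only [Matrix.cons_val_one, Matrix.cons_val_zero]
    intro h
    have h2 : ((i : ℂ) + 1) = 0 := by
      have h3 : (algebraMap ℂ ℂ) (i : ℂ) = i := rfl
      rw [h3] at h
      linear_combination -h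
    exact absurd h2 (Nat.cast_add_one_ne_zero i)

lemma mem_example (m : ℕ) (x q : PSpace 2) (hq : eval q.rep (yPoly m) ≠ 0)
    (h : (x, q) ∈ zeroSet (exPoly m)) :
    q.rep 0 ≠ 0 ∧ (prodLin m (1 : ℂ) (q.rep 1 / q.rep 0) ≠ 0) ∧
      x.rep 0 + x.rep 1 * (q.rep 1 / q.rep 0) +
        x.rep 2 * (prodLin m (1 : ℂ) (q.rep 1 / q.rep 0) * (q.rep 2 / q.rep 0) ^ 2) = 0 := by
  have h5 : ∀ P : Poly1 2, eval q.rep P = aeval q.rep P :=
    fun P => (DFunLike.congr_fun (coe_aeval_eq_eval _) P).symm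
  rw [h5, yPoly, map_mul, map_prodLin, aeval_X, aeval_X] at hq
  have h0 : q.rep 0 ≠ 0 := left_ne_zero_of_mul hq
  have hP : prodLin m (q.rep 0) (q.rep 1) ≠ 0 := right_ne_zero_of_mul hq
  have hfac : prodLin m (q.rep 0) (q.rep 1) =
      (q.rep 0) ^ m * prodLin m (1 : ℂ) (q.rep 1 / q.rep 0) := by
    rw [← prodLin_mul, mul_one, mul_div_cancel₀ _ h0]
  refine ⟨h0, ?_, ?_⟩
  · intro h1
    apply hP
    rw [hfac, h1, mul_zero]
  · have h6 : aeval (Sum.elim x.rep q.rep) (exPoly m) = 0 := by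
      have : aeval (Sum.elim x.rep q.rep) (exPoly m) = eval (Sum.elim x.rep q.rep) (exPoly m) :=
        DFunLike.congr_fun (coe_aeval_eq_eval _) _
      rw [this]; exact h
    rw [aeval_exPoly, hfac] at h6
    have h7 : (q.rep 0) ^ (m + 2) ≠ 0 := pow_ne_zero _ h0
    apply mul_left_cancel₀ h7
    rw [mul_zero, ← h6]
    set P := prodLin m (1 : ℂ) (q.rep 1 / q.rep 0)
    field_simp
    ring

lemma example_unique (m : ℕ) (x x' q q' : PSpace 2) (hx : x ≠ x')
    (hq : eval q.rep (yPoly m) ≠ 0) (hq' : eval q'.rep (yPoly m) ≠ 0)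
    (h1 : (x, q) ∈ zeroSet (exPoly m)) (h2 : (x', q) ∈ zeroSet (exPoly m))
    (h3 : (x, q') ∈ zeroSet (exPoly m)) (h4 : (x', q') ∈ zeroSet (exPoly m)) :
    q.rep 0 ≠ 0 ∧ q'.rep 0 ≠ 0 ∧ q.rep 1 / q.rep 0 = q'.rep 1 / q'.rep 0 ∧
      (q.rep 2 / q.rep 0) ^ 2 = (q'.rep 2 / q'.rep 0) ^ 2 := by
  obtain ⟨a0, aP, a1⟩ := mem_example m x q hq h1
  obtain ⟨-, -, a2⟩ := mem_example m x' q hq h2
  obtain ⟨b0, bP, b1⟩ := mem_example m x q' hq' h3
  obtain ⟨-, -, b2⟩ := mem_example m x' q' hq' h4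
  refine ⟨a0, b0, ?_⟩
  set u := q.rep 1 / q.rep 0
  set u' := q'.rep 1 / q'.rep 0
  set v := q.rep 2 / q.rep 0
  set v' := q'.rep 2 / q'.rep 0
  set w := prodLin m (1 : ℂ) u * v ^ 2 with hw
  set w' := prodLin m (1 : ℂ) u' * v' ^ 2 with hw'
  have hD : x.rep 1 * x'.rep 2 - x.rep 2 * x'.rep 1 ≠ 0 := by
    intro hD
    apply hx
    apply cross_eq x x' hD
    · linear_combination u * hD - x.rep 2 * (-a2) - x'.rep 2 * a1
    · linear_combination w * hD + x.rep 1 * (-a2) + x'.rep 1 * a1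
  have hu : u = u' := by
    have h5 : (x.rep 1 * x'.rep 2 - x.rep 2 * x'.rep 1) * (u - u') = 0 := by
      linear_combination x'.rep 2 * (a1 - b1) - x.rep 2 * (a2 - b2)
    rcases mul_eq_zero.mp h5 with h | h
    · exact absurd h hD
    · exact sub_eq_zero.mp h
  have hww : w = w' := by
    have h5 : (x.rep 1 * x'.rep 2 - x.rep 2 * x'.rep 1) * (w - w') = 0 := by
      linear_combination (-x'.rep 1) * (a1 - b1) + x.rep 1 * (a2 - b2)
    rcases mul_eq_zero.mp h5 with h | h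
    · exact absurd h hD
    · exact sub_eq_zero.mp h
  refine ⟨hu, ?_⟩
  rw [hw, hw', ← hu] at hww
  exact mul_left_cancel₀ aP hww

lemma example_almostGridFree (m t : ℕ) (ht : 3 ≤ t) :
    IsAlmostGridFree 2 t (zeroSet (exPoly m)) := by
  classical
  refine ⟨Set.univ, {p | eval p.rep (yPoly m) ≠ 0}, isZariskiOpen_univ 2,
    ⟨Projectivization.mk ℂ ![1, -1, 0] (fun h => by simpa using congrFun h 0), trivial⟩,
    isZariskiOpen_single _ (yPoly_homog m), yOpen_nonempty m, ?_⟩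
  rintro ⟨S, T, hS, hT, hST⟩
  obtain ⟨x, x', hxx', rfl⟩ := Finset.card_eq_two.mp hS
  have h2 : 2 < T.card := by omega
  obtain ⟨q1, hq1, q2, hq2, q3, hq3, h12, h13, h23⟩ := Finset.two_lt_card.mp h2
  have hx : x ∈ ({x, x'} : Finset (PSpace 2)) := by simp
  have hx' : x' ∈ ({x, x'} : Finset (PSpace 2)) := by simp
  have key : ∀ q ∈ T, ∀ q' ∈ T, q.rep 0 ≠ 0 ∧ q'.rep 0 ≠ 0 ∧
      q.rep 1 / q.rep 0 = q'.rep 1 / q'.rep 0 ∧
      (q.rep 2 / q.rep 0) ^ 2 = (q'.rep 2 / q'.rep 0) ^ 2 := by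
    intro q hq q' hq'
    have a1 := hST x hx q hq
    have a2 := hST x' hx' q hq
    have a3 := hST x hx q' hq'
    have a4 := hST x' hx' q' hq'
    exact example_unique m x x' q q' hxx' a1.2.2 a3.2.2 a1.1 a2.1 a3.1 a4.1
  obtain ⟨a0, a0', a1, a2⟩ := key q1 hq1 q2 hq2
  obtain ⟨-, b0', b1, b2⟩ := key q1 hq1 q3 hq3
  have c2 : q2.rep 2 / q2.rep 0 = - (q1.rep 2 / q1.rep 0) := by
    rcases sq_eq_sq_iff_eq_or_eq_neg.mp a2 with h | h
    · exact absurd (point_eq q1 q2 a0 a0' a1 h) h12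
    · rw [h]; ring
  have c3 : q3.rep 2 / q3.rep 0 = - (q1.rep 2 / q1.rep 0) := by
    rcases sq_eq_sq_iff_eq_or_eq_neg.mp b2 with h | h
    · exact absurd (point_eq q1 q3 a0 b0' b1 h) h13
    · rw [h]; ring
  exact h23 (point_eq q2 q3 a0' b0' (a1.symm.trans b1) (c2.trans c3.symm))

end Pool.Agent.GridFree
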