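import Mathlib
import Pool.Agent.GridFree.Grid

set_option autoImplicit false

namespace Pool.Agent.GridFree

open MvPolynomial

lemma not_dvd_inl (m : ℕ) (f : Poly1 2) (hf : f ≠ 0) :
    ¬ exPoly m ∣ rename Sum.inl f := by
  rintro ⟨k, hk⟩
  apply hf
  apply MvPolynomial.funext
  intro x
  rw [map_zero]
  have h1 := congrArg (aeval (Sum.elim x (![0, 1, 0] : Fin 3 → ℂ))) hk
  rw [map_mul, aeval_exPoly, aeval_rename] at h1
  have h2 : (Sum.elim x (![0, 1, 0] : Fin 3 → ℂ)) ∘ Sum.inl = x := by funext i; rfl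
  rw [h2] at h1
  have h3 : aeval x f = eval x f := DFunLike.congr_fun (coe_aeval_eq_eval _) f
  rw [← h3, h1]
  simp

lemma not_dvd_inr (m : ℕ) (f : Poly1 2) (hf : f ≠ 0) :
    ¬ exPoly m ∣ rename Sum.inr f := by
  rintro ⟨k, hk⟩
  apply hf
  apply MvPolynomial.funext
  intro x
  rw [map_zero]
  have h1 := congrArg (aeval (Sum.elim (fun _ => 0 : Fin 3 → ℂ) x)) hk
  rw [map_mul, aeval_exPoly, aeval_rename] at h1
  have h2 : (Sum.elim (fun _ => 0 : Fin 3 → ℂ) x) ∘ Sum.inr = x := by funext i; rfl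
  rw [h2] at h1
  have h3 : aeval x f = eval x f := DFunLike.congr_fun (coe_aeval_eq_eval _) f
  rw [← h3, h1]
  simp

lemma exists_poly_of_open {s : ℕ} {X : Set (PSpace s)} (hX : IsZariskiOpen X)
    (hne : X.Nonempty) : ∃ (f : Poly1 s), f ≠ 0 ∧
      ∀ (v : Fin (s + 1) → ℂ) (hv : v ≠ 0), eval v f ≠ 0 → Projectivization.mk ℂ v hv ∈ X := by
  obtain ⟨S, hS, rfl⟩ := hX
  obtain ⟨p, f, hf, hfp⟩ := hne
  obtain ⟨n, hn⟩ := hS f hf
  refine ⟨f, ?_, ?_⟩
  · rintro rfl
    simp at hfp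
  · intro v hv hfv
    exact ⟨f, hf, mem_open_mk f hn v hv hfv⟩

lemma dvd_of_almostEqual (m a b n : ℕ) (σ : Fin 3 → Poly1 2)
    (hσ : ∀ i, (σ i).IsHomogeneous n) (F : Poly2 2) (hF : IsBihomogeneous F a b)
    (h : AlmostEqual (zeroSet (exPoly m)) (zeroSet (compSnd F σ))) :
    F ≠ 0 ∧ exPoly m ∣ compSnd F σ := by
  obtain ⟨U, V, hU, hUne, hV, hVne, hUV⟩ := h
  obtain ⟨f, hf0, hf⟩ := exists_poly_of_open hU hUne
  obtain ⟨g, hg0, hg⟩ := exists_poly_of_open hV hVne
  set N1 : Poly2 2 := rename Sum.inl (X 0 * f) with hN1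
  set N2 : Poly2 2 := rename Sum.inr (X 0 * g) with hN2
  have hprime : Prime (exPoly m) := (exPoly_irreducible m).prime
  have hf0' : X 0 * f ≠ 0 := mul_ne_zero (X_ne_zero _) hf0
  have hg0' : X 0 * g ≠ 0 := mul_ne_zero (X_ne_zero _) hg0
  have hmem : ∀ v : Fin 3 ⊕ Fin 3 → ℂ, eval v (N1 * N2) ≠ 0 →
      ∃ (hx : (fun i => v (Sum.inl i)) ≠ (0 : Fin 3 → ℂ))
        (hy : (fun i => v (Sum.inr i)) ≠ (0 : Fin 3 → ℂ)),
        Projectivization.mk ℂ (fun i => v (Sum.inl i)) hx ∈ U ∧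
        Projectivization.mk ℂ (fun i => v (Sum.inr i)) hy ∈ V := by
    intro v hv
    rw [map_mul, hN1, hN2, eval_rename, eval_rename, map_mul, map_mul, eval_X, eval_X] at hv
    have h1 := left_ne_zero_of_mul (left_ne_zero_of_mul hv)
    have h2 := right_ne_zero_of_mul (left_ne_zero_of_mul hv)
    have h3 := left_ne_zero_of_mul (right_ne_zero_of_mul hv)
    have h4 := right_ne_zero_of_mul (right_ne_zero_of_mul hv)
    have hx : (fun i => v (Sum.inl i)) ≠ (0 : Fin 3 → ℂ) := fun h => h1 (congrFun h 0)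
    have hy : (fun i => v (Sum.inr i)) ≠ (0 : Fin 3 → ℂ) := fun h => h3 (congrFun h 0)
    exact ⟨hx, hy, hf _ hx h2, hg _ hy h4⟩
  have hN : N1 * N2 ≠ 0 := by
    apply mul_ne_zero
    · rw [hN1, Ne, map_eq_zero_iff _ (rename_injective _ Sum.inl_injective)]
      exact hf0'
    · rw [hN2, Ne, map_eq_zero_iff _ (rename_injective _ Sum.inr_injective)]
      exact hg0'
  have hsplit : ∀ v : Fin 3 ⊕ Fin 3 → ℂ,
      Sum.elim (fun i => v (Sum.inl i)) (fun i => v (Sum.inr i)) = v := by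
    intro v; funext k; rcases k with i | i <;> rfl
  constructor
  · rintro rfl
    have h0 : (N1 * N2) * exPoly m = 0 := by
      apply MvPolynomial.funext
      intro v
      rw [map_mul, map_zero, mul_eq_zero]
      by_contra hcon
      push Not at hcon
      obtain ⟨hx, hy, hxU, hyV⟩ := hmem v hcon.1
      apply hcon.2
      rw [← hsplit v, ← mem_zeroSet_mk _ (exPoly_bihom m) _ _ hx hy]
      have : (Projectivization.mk ℂ (fun i => v (Sum.inl i)) hx,
          Projectivization.mk ℂ (fun i => v (Sum.inr i)) hy) ∈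
          zeroSet (compSnd (0 : Poly2 2) σ) ∩ U ×ˢ V := by
        refine ⟨?_, hxU, hyV⟩
        simp [zeroSet, compSnd]
      rw [← hUV] at this
      exact this.1
    exact (mul_ne_zero hN (exPoly_irreducible m).ne_zero) h0
  · have hnull : exPoly m ∣ (N1 * N2) * compSnd F σ := by
      rw [← Ideal.mem_span_singleton]
      have hP : (Ideal.span {exPoly m} : Ideal (Poly2 2)).IsPrime := by
        rw [Ideal.span_singleton_prime hprime.ne_zero]
        exact hprime
      rw [← IsPrime.vanishingIdeal_zeroLocus (K := ℂ) (Ideal.span {exPoly m} : Ideal (Poly2 2))]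
      rw [mem_vanishingIdeal_iff]
      intro v hv
      rw [mem_zeroLocus_iff] at hv
      have hv1 := hv (exPoly m) (Ideal.mem_span_singleton_self _)
      have hev : ∀ P : Poly2 2, aeval v P = eval v P :=
        fun P => DFunLike.congr_fun (coe_aeval_eq_eval _) P
      rw [hev] at hv1 ⊢
      rw [map_mul, mul_eq_zero]
      by_contra hcon
      push Not at hcon
      obtain ⟨hx, hy, hxU, hyV⟩ := hmem v hcon.1
      apply hcon.2
      have h1 : (Projectivization.mk ℂ (fun i => v (Sum.inl i)) hx,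
          Projectivization.mk ℂ (fun i => v (Sum.inr i)) hy) ∈
          zeroSet (exPoly m) ∩ U ×ˢ V := by
        refine ⟨?_, hxU, hyV⟩
        rw [mem_zeroSet_mk _ (exPoly_bihom m), hsplit]
        exact hv1
      rw [hUV] at h1
      have h2 := h1.1
      obtain ⟨k, hk, e1⟩ := rep_mk_smul (fun i => v (Sum.inl i)) hx
      obtain ⟨l, hl, e2⟩ := rep_mk_smul (fun i => v (Sum.inr i)) hy
      change eval (Sum.elim (Projectivization.mk ℂ (fun i => v (Sum.inl i)) hx).rep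
        (Projectivization.mk ℂ (fun i => v (Sum.inr i)) hy).rep) (compSnd F σ) = 0 at h2
      rw [e1, e2, compSnd_bihom F hF σ hσ, hsplit, mul_eq_zero] at h2
      exact h2.resolve_left
        (mul_ne_zero (pow_ne_zero _ hk) (pow_ne_zero _ (pow_ne_zero _ hl)))
    rcases hprime.dvd_or_dvd hnull with h1 | h1
    · rcases hprime.dvd_or_dvd h1 with h2 | h2
      · exact absurd h2 (not_dvd_inl m _ hf0')
      · exact absurd h2 (not_dvd_inr m _ hg0')
    · exact h1

theorem not_boundedUpToCremona (t : ℕ) (ht : 3 ≤ t) : ¬ BoundedUpToCremona 2 t := by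
  rintro ⟨d, hd⟩
  obtain ⟨σ, F, a, b, hσ, hF, hb, hae⟩ := hd (zeroSet (exPoly (2 * d + 5)))
    ⟨exPoly (2 * d + 5), _, _, exPoly_bihom _, exPoly_irreducible _, rfl⟩
    (example_almostGridFree _ t ht)
  obtain ⟨⟨⟨n, hn⟩, -⟩, τ, -, ⟨c, hc, hστ⟩, ⟨c', hc', hτσ⟩⟩ := hσ
  obtain ⟨hF0, hdvd⟩ := dvd_of_almostEqual _ a b n σ hn F hF hae
  have := main_alg (2 * d + 5) b a ⟨d + 2, by ring⟩ σ τ c c' hc hc' hστ hτσ F hF hF0 hdvd
  omega

end Pool.Agent.GridFree
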